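import Pool.Agent.U798.ML.Bound
import Pool.Agent.Helper425_zc.Comp

/-!
# The algorithm
-/

set_option autoImplicit false

namespace Pool.Agent.U798.ML

open Polynomial Pool.Agent.Helper425_zc

/-- The polynomial with a given list of coefficients (beginning with the constant term). -/
noncomputable def toPoly (l : List ℤ) : ℤ[X] := ∑ i ∈ Finset.range l.length, C (l.getD i 0) * X ^ i

theorem coeff_toPoly (l : List ℤ) (j : ℕ) : (toPoly l).coeff j = l.getD j 0 := by
  unfold toPoly
  simp only [finsetSum_coeff, coeff_C_mul, coeff_X_pow, mul_ite, mul_one, mul_zero,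
    Finset.sum_ite_eq, Finset.mem_range]
  split_ifs with h
  · rfl
  · rw [List.getD_eq_default _ _ (by omega)]

theorem natDegree_toPoly_lt {l : List ℤ} (h : toPoly l ≠ 0) : (toPoly l).natDegree < l.length := by
  by_contra hcon
  have h1 : (toPoly l).coeff (toPoly l).natDegree ≠ 0 := leadingCoeff_ne_zero.2 h
  rw [coeff_toPoly, List.getD_eq_default _ _ (by omega)] at h1
  exact h1 rfl

/-- The sum of the absolute values of the entries. -/
def lenL (l : List ℤ) : ℕ := l.foldl (fun s x => s + x.natAbs) 0

theorem lenL_foldl (l : List ℤ) (s : ℕ) :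
    l.foldl (fun s x => s + x.natAbs) s = s + (l.map Int.natAbs).sum := by
  induction l generalizing s with
  | nil => simp
  | cons a l ih => rw [List.foldl_cons, ih, List.map_cons, List.sum_cons]; ring

theorem lenL_eq (l : List ℤ) : lenL l = ∑ i ∈ Finset.range l.length, (l.getD i 0).natAbs := by
  unfold lenL
  rw [lenL_foldl, zero_add]
  induction l with
  | nil => simp
  | cons a l ih =>
    rw [List.map_cons, List.sum_cons, List.length_cons, Finset.sum_range_succ', ih, add_comm]
    simp

theorem len_toPoly (l : List ℤ) : len (toPoly l) = lenL l := by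
  rw [lenL_eq]
  push_cast
  by_cases h : toPoly l = 0
  · have h1 : ∀ i, l.getD i 0 = 0 := by
      intro i
      rw [← coeff_toPoly, h, coeff_zero]
    rw [h]
    unfold len
    simp only [support_zero, Finset.sum_empty, h1, abs_zero, Finset.sum_const_zero]
  · rw [len_eq _ (natDegree_toPoly_lt h)]
    refine Finset.sum_congr rfl fun i _ => ?_
    rw [coeff_toPoly]

/-- The product of two lists of coefficients. -/
def mulL (l m : List ℤ) : List ℤ :=
  (List.range (l.length + m.length)).map fun n =>
    (List.range (n + 1)).foldl (fun s i => s + l.getD i 0 * m.getD (n - i) 0) 0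

theorem foldl_range (f : ℕ → ℤ) (n : ℕ) :
    (List.range n).foldl (fun s i => s + f i) 0 = ∑ i ∈ Finset.range n, f i := by
  induction n with
  | zero => simp
  | succ n ih => rw [List.range_succ, List.foldl_append, ih, Finset.sum_range_succ]; rfl

theorem getD_mulL (l m : List ℤ) (n : ℕ) :
    (mulL l m).getD n 0 = (toPoly l * toPoly m).coeff n := by
  have h1 : (toPoly l * toPoly m).coeff n =
      ∑ i ∈ Finset.range (n + 1), l.getD i 0 * m.getD (n - i) 0 := by
    rw [coeff_mul, Finset.Nat.sum_antidiagonal_eq_sum_range_succ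
        (fun i j => (toPoly l).coeff i * (toPoly m).coeff j) n]
    refine Finset.sum_congr rfl fun i _ => ?_
    rw [coeff_toPoly, coeff_toPoly]
  rw [h1]
  by_cases h : n < l.length + m.length
  · unfold mulL
    rw [List.getD_eq_getElem _ _ (by simpa using h), List.getElem_map, List.getElem_range,
      foldl_range]
  · unfold mulL
    rw [List.getD_eq_default _ _ (by simpa using h)]
    symm
    refine Finset.sum_eq_zero fun i hi => ?_
    have hi' := Finset.mem_range.1 hi
    rcases Nat.lt_or_ge i l.length with h2 | h2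
    · rw [List.getD_eq_default m _ (by omega), mul_zero]
    · rw [List.getD_eq_default l _ h2, zero_mul]

theorem toPoly_mulL (l m : List ℤ) : toPoly (mulL l m) = toPoly l * toPoly m := by
  ext n
  rw [coeff_toPoly, getD_mulL]

/-- The integers of absolute value at most `M`. -/
def ints (M : ℕ) : List ℤ := (List.range (2 * M + 1)).map fun i : ℕ => (i : ℤ) - (M : ℤ)

theorem mem_ints {M : ℕ} {x : ℤ} : x ∈ ints M ↔ |x| ≤ M := by
  unfold ints
  rw [List.mem_map]
  constructor
  · rintro ⟨i, hi, rfl⟩
    rw [List.mem_range] at hi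
    rw [abs_le]
    omega
  · intro h
    rw [abs_le] at h
    exact ⟨(x + M).toNat, by rw [List.mem_range]; omega, by omega⟩

/-- The lists of length at most `n` with entries of absolute value at most `M`. -/
def cands (M n : ℕ) : List (List ℤ) :=
  Nat.rec (motive := fun _ => List (List ℤ)) [[]]
    (fun _ c => c ++ (ints M).flatMap fun a => c.map fun t => a :: t) n

theorem cands_succ (M n : ℕ) :
    cands M (n + 1) = cands M n ++ (ints M).flatMap fun a => (cands M n).map fun t => a :: t := rfl

theorem mem_cands {M : ℕ} (n : ℕ) (t : List ℤ) (h : t.length ≤ n) (hM : ∀ x ∈ t, |x| ≤ M) :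
    t ∈ cands M n := by
  induction n generalizing t with
  | zero =>
    have : t = [] := List.length_eq_zero_iff.1 (by omega)
    subst this
    exact List.mem_singleton.2 rfl
  | succ n ih =>
    rw [cands_succ, List.mem_append]
    cases t with
    | nil => exact Or.inl (ih [] (Nat.zero_le _) (by simp))
    | cons a t =>
      right
      rw [List.mem_flatMap]
      refine ⟨a, mem_ints.2 (hM a List.mem_cons_self), ?_⟩
      rw [List.mem_map]
      refine ⟨t, ih t ?_ fun x hx => hM x (List.mem_cons_of_mem _ hx), rfl⟩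
      rw [List.length_cons] at h
      omega

/-- Replace the cofactor `t` by `t'` if this gives a nonzero product of smaller length. -/
def better (l t t' : List ℤ) : List ℤ :=
  if 0 < lenL (mulL l t') ∧ lenL (mulL l t') < lenL (mulL l t) then t' else t

theorem foldl_better (l : List ℤ) (c : List (List ℤ)) (t : List ℤ) (ht : 0 < lenL (mulL l t)) :
    0 < lenL (mulL l (c.foldl (better l) t)) ∧
    lenL (mulL l (c.foldl (better l) t)) ≤ lenL (mulL l t) ∧
    ∀ t' ∈ c, 0 < lenL (mulL l t') →
      lenL (mulL l (c.foldl (better l) t)) ≤ lenL (mulL l t') := by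
  induction c generalizing t with
  | nil => exact ⟨ht, le_rfl, by simp⟩
  | cons a c ih =>
    rw [List.foldl_cons]
    by_cases h : 0 < lenL (mulL l a) ∧ lenL (mulL l a) < lenL (mulL l t)
    · have e : better l t a = a := if_pos h
      rw [e]
      obtain ⟨h1, h2, h3⟩ := ih a h.1
      refine ⟨h1, by omega, ?_⟩
      intro t' ht' hpos
      rcases List.mem_cons.1 ht' with rfl | h4
      · exact h2
      · exact h3 t' h4 hpos
    · have e : better l t a = t := if_neg h
      rw [e]
      obtain ⟨h1, h2, h3⟩ := ih t ht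
      refine ⟨h1, h2, ?_⟩
      intro t' ht' hpos
      rcases List.mem_cons.1 ht' with rfl | h4
      · omega
      · exact h3 t' h4 hpos

/-- The bound of the degrees of the cofactors. -/
def bnd (l : List ℤ) : ℕ := lenL l * l.length * lenL l

/-- The algorithm. -/
def alg (l : List ℤ) : List ℤ :=
  mulL l ((cands ((lenL l + 1) ^ (bnd l + 1)) (bnd l)).foldl (better l) [1])

theorem alg_isMin {l : List ℤ} (hP : Irreducible (toPoly l)) (hd : (toPoly l).natDegree ≠ 0)
    (ha : 2 ≤ |(toPoly l).leadingCoeff|) : IsMin (toPoly l) (toPoly (alg l)) := by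
  have hP0 : toPoly l ≠ 0 := hP.ne_zero
  have hX : ¬ toPoly l ∣ X := by
    intro h
    obtain ⟨Q, hQ⟩ := h
    have h1 := congrArg leadingCoeff hQ
    rw [leadingCoeff_X, leadingCoeff_mul] at h1
    have h2 : |(toPoly l).leadingCoeff| ∣ 1 := (abs_dvd _ _).2 ⟨_, h1⟩
    have := Int.le_of_dvd one_pos h2
    omega
  obtain ⟨F, hF, hF0⟩ := exists_min hP hX
  have hLP : len F ≤ (lenL l : ℕ) := by
    rw [← len_toPoly]
    exact hF.2.2 _ hP0 dvd_rfl
  have hdeg := degree_lt hP hd ha hF hF0 hLP
  have hdeg' : F.natDegree < bnd l := by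
    refine lt_of_lt_of_le hdeg ?_
    unfold bnd
    exact Nat.mul_le_mul_right _ (Nat.mul_le_mul_left _ (natDegree_toPoly_lt hP0).le)
  obtain ⟨T, hT⟩ := hF.2.1
  have hT0 : T ≠ 0 := by
    rintro rfl
    exact hF.1 (by rw [hT, mul_zero])
  have hTdeg : T.natDegree < bnd l := by
    have h1 : F.natDegree = (toPoly l).natDegree + T.natDegree := by
      rw [hT, natDegree_mul hP0 hT0]
    omega
  have hcoef0 : (toPoly l).coeff 0 ≠ 0 := by
    intro h
    rw [hT, mul_coeff_zero, h, zero_mul] at hF0
    exact hF0 rfl
  have hTb : ∀ n, |T.coeff n| ≤ ((lenL l : ℤ) + 1) ^ (n + 1) :=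
    fun n => cofactor_le hcoef0 (len_toPoly l).le (by rw [← hT]; exact hLP) n
  set t : List ℤ := (List.range (bnd l)).map fun i => T.coeff i with ht
  have htT : toPoly t = T := by
    ext n
    rw [coeff_toPoly, ht]
    rcases Nat.lt_or_ge n (bnd l) with h | h
    · rw [List.getD_eq_getElem _ _ (by simpa using h), List.getElem_map, List.getElem_range]
    · rw [List.getD_eq_default _ _ (by simpa using h), coeff_eq_zero_of_natDegree_lt (by omega)]
  have htc : t ∈ cands ((lenL l + 1) ^ (bnd l + 1)) (bnd l) := by
    refine mem_cands _ _ ?_ ?_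
    · rw [ht, List.length_map, List.length_range]
    · intro x hx
      obtain ⟨n, hn, rfl⟩ := List.mem_map.1 hx
      rw [List.mem_range] at hn
      refine (hTb n).trans ?_
      push_cast
      exact pow_le_pow_right₀ (by omega) (by omega)
  have hone : toPoly [1] = 1 := by
    ext n
    rw [coeff_toPoly, coeff_one]
    cases n with
    | zero => rfl
    | succ n => rw [List.getD_eq_default _ _ (by simp), if_neg (by omega)]
  have hpos1 : 0 < lenL (mulL l [1]) := by
    have h1 : (lenL (mulL l [1]) : ℤ) = len (toPoly l) := by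
      rw [← len_toPoly, toPoly_mulL, hone, mul_one]
    have h2 := one_le_len hP0
    omega
  obtain ⟨h1, -, h3⟩ := foldl_better l (cands ((lenL l + 1) ^ (bnd l + 1)) (bnd l)) [1] hpos1
  have hFt : (lenL (mulL l t) : ℤ) = len F := by
    rw [← len_toPoly, toPoly_mulL, htT, ← hT]
  have h4 := h3 t htc (by have := one_le_len hF.1; omega)
  have h5 : (lenL (alg l) : ℤ) ≤ len F := by
    rw [← hFt]
    exact_mod_cast h4
  refine ⟨?_, ?_, ?_⟩
  · intro h
    have h6 : (lenL (alg l) : ℤ) = 0 := by
      rw [← len_toPoly, h]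
      unfold len
      simp
    have h7 : 0 < lenL (alg l) := h1
    omega
  · unfold alg
    rw [toPoly_mulL]
    exact dvd_mul_right _ _
  · intro G hG hPG
    rw [len_toPoly]
    exact h5.trans (hF.2.2 G hG hPG)

/-! ### Computability -/

theorem prim_lenL : Primrec lenL := by
  unfold lenL
  refine Primrec.list_foldl (α := List ℤ) (f := fun l => l) (g := fun _ => (0 : ℕ))
    (h := fun _ p => p.1 + p.2.natAbs) Primrec.id (Primrec.const 0) ?_
  exact (Primrec.nat_add.comp (Primrec.fst.comp Primrec.snd)
    (prim_natAbs.comp (Primrec.snd.comp Primrec.snd))).to₂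

theorem prim_mulL : Primrec₂ mulL := by
  unfold mulL
  refine Primrec.list_map
    (f := fun p : List ℤ × List ℤ => List.range (p.1.length + p.2.length))
    (g := fun p n => (List.range (n + 1)).foldl
      (fun s i => s + p.1.getD i 0 * p.2.getD (n - i) 0) 0) ?_ ?_
  · exact Primrec.list_range.comp (Primrec.nat_add.comp (Primrec.list_length.comp Primrec.fst)
      (Primrec.list_length.comp Primrec.snd))
  · refine Primrec.list_foldl (α := (List ℤ × List ℤ) × ℕ)
      (f := fun q => List.range (q.2 + 1)) (g := fun _ => (0 : ℤ))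
      (h := fun q r => r.1 + q.1.1.getD r.2 0 * q.1.2.getD (q.2 - r.2) 0) ?_ ?_ ?_
    · exact Primrec.list_range.comp (Primrec.succ.comp Primrec.snd)
    · exact Primrec.const 0
    · refine padd (Primrec.fst.comp Primrec.snd) (pmul ?_ ?_)
      · exact (Primrec.list_getD (0 : ℤ)).comp (Primrec.fst.comp (Primrec.fst.comp Primrec.fst))
          (Primrec.snd.comp Primrec.snd)
      · exact (Primrec.list_getD (0 : ℤ)).comp (Primrec.snd.comp (Primrec.fst.comp Primrec.fst))
          (Primrec.nat_sub.comp (Primrec.snd.comp Primrec.fst) (Primrec.snd.comp Primrec.snd))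

theorem prim_ints : Primrec ints := by
  unfold ints
  refine Primrec.list_map (f := fun M : ℕ => List.range (2 * M + 1))
    (g := fun (M i : ℕ) => (i : ℤ) - (M : ℤ)) ?_ ?_
  · exact Primrec.list_range.comp (Primrec.succ.comp
      (Primrec.nat_mul.comp (Primrec.const 2) Primrec.id))
  · exact prim_natSub.comp Primrec.snd Primrec.fst

theorem prim_cands : Primrec₂ cands := by
  unfold cands
  refine Primrec.nat_rec (f := fun _ : ℕ => [[]])
    (g := fun M (p : ℕ × List (List ℤ)) =>
      p.2 ++ (ints M).flatMap fun a => p.2.map fun t => a :: t) (Primrec.const _) ?_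
  refine Primrec.list_append.comp (Primrec.snd.comp Primrec.snd) ?_
  refine Primrec.list_flatMap (f := fun q : ℕ × (ℕ × List (List ℤ)) => ints q.1)
    (g := fun q a => q.2.2.map fun t => a :: t) (prim_ints.comp Primrec.fst) ?_
  refine Primrec.list_map (f := fun q : (ℕ × (ℕ × List (List ℤ))) × ℤ => q.1.2.2)
    (g := fun q t => q.2 :: t) ?_ ?_
  · exact Primrec.snd.comp (Primrec.snd.comp Primrec.fst)
  · exact Primrec.list_cons.comp (Primrec.snd.comp Primrec.fst) Primrec.snd

theorem prim_pow : Primrec₂ (fun a b : ℕ => a ^ b) := by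
  have h : Primrec₂ (fun a b : ℕ => Nat.rec (motive := fun _ => ℕ) 1 (fun _ c => c * a) b) := by
    refine Primrec.nat_rec (f := fun _ : ℕ => 1) (g := fun a (p : ℕ × ℕ) => p.2 * a)
      (Primrec.const _) ?_
    exact Primrec.nat_mul.comp (Primrec.snd.comp Primrec.snd) Primrec.fst
  refine h.of_eq fun a b => ?_
  induction b with
  | zero => rfl
  | succ b ih => rw [pow_succ, ← ih]

theorem prim_bnd : Primrec bnd := by
  unfold bnd
  exact Primrec.nat_mul.comp (Primrec.nat_mul.comp prim_lenL Primrec.list_length) prim_lenL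

theorem prim_alg : Primrec alg := by
  unfold alg
  refine prim_mulL.comp Primrec.id ?_
  refine Primrec.list_foldl (α := List ℤ)
    (f := fun l => cands ((lenL l + 1) ^ (bnd l + 1)) (bnd l)) (g := fun _ => [1])
    (h := fun l p => better l p.1 p.2) ?_ (Primrec.const _) ?_
  · exact prim_cands.comp (prim_pow.comp (Primrec.succ.comp prim_lenL)
      (Primrec.succ.comp prim_bnd)) prim_bnd
  · unfold better
    have h1 : Primrec fun q : List ℤ × (List ℤ × List ℤ) => lenL (mulL q.1 q.2.2) :=
      prim_lenL.comp (prim_mulL.comp Primrec.fst (Primrec.snd.comp Primrec.snd))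
    have h2 : Primrec fun q : List ℤ × (List ℤ × List ℤ) => lenL (mulL q.1 q.2.1) :=
      prim_lenL.comp (prim_mulL.comp Primrec.fst (Primrec.fst.comp Primrec.snd))
    refine Primrec.ite (PrimrecPred.and ?_ ?_) (Primrec.snd.comp Primrec.snd)
      (Primrec.fst.comp Primrec.snd)
    · exact Primrec.nat_lt.comp (Primrec.const 0) h1
    · exact Primrec.nat_lt.comp h1 h2

end Pool.Agent.U798.ML
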