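import Pool.Agent.U798.ML.Gap

/-!
# The degree of a minimum-length multiple
-/

set_option autoImplicit false

namespace Pool.Agent.U798.ML

open Polynomial

/-- `F` is a nonzero multiple of `P` of minimum length. -/
def IsMin (P F : ℤ[X]) : Prop := F ≠ 0 ∧ P ∣ F ∧ ∀ G : ℤ[X], G ≠ 0 → P ∣ G → len F ≤ len G

theorem len_eq (F : ℤ[X]) {n : ℕ} (h : F.natDegree < n) :
    len F = ∑ i ∈ Finset.range n, |F.coeff i| := by
  unfold len
  refine Finset.sum_subset ?_ ?_
  · intro i hi
    have := le_natDegree_of_mem_supp i hi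
    exact Finset.mem_range.2 (by omega)
  · intro i _ hi
    rw [notMem_support_iff.1 hi, abs_zero]

theorem one_le_len {F : ℤ[X]} (h : F ≠ 0) : 1 ≤ len F := by
  have h1 : F.natDegree ∈ F.support := natDegree_mem_support_of_nonzero h
  have h2 : |F.coeff F.natDegree| ≤ len F :=
    Finset.single_le_sum (f := fun i => |F.coeff i|) (fun _ _ => abs_nonneg _) h1
  have h3 : 1 ≤ |F.coeff F.natDegree| := Int.one_le_abs (mem_support_iff.1 h1)
  omega

theorem abs_coeff_le (F : ℤ[X]) (i : ℕ) : |F.coeff i| ≤ len F := by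
  by_cases h : i ∈ F.support
  · exact Finset.single_le_sum (f := fun i => |F.coeff i|) (fun _ _ => abs_nonneg _) h
  · rw [notMem_support_iff.1 h, abs_zero]
    exact len_nonneg F

theorem card_support_le (F : ℤ[X]) : (F.support.card : ℤ) ≤ len F := by
  unfold len
  rw [Finset.card_eq_sum_ones]
  push_cast
  refine Finset.sum_le_sum fun i hi => ?_
  exact Int.one_le_abs (mem_support_iff.1 hi)

theorem len_split {F F₁ F₂ : ℤ[X]} {k N : ℕ} (h1 : F₁.natDegree ≤ k) (hkN : k < N)
    (h : F = F₁ + X ^ N * F₂) : len F = len F₁ + len F₂ := by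
  have h2 : F.natDegree < N + (F₂.natDegree + 1) := by
    rw [h]
    refine lt_of_le_of_lt (natDegree_add_le _ _) ?_
    rw [max_lt_iff]
    constructor
    · omega
    · refine lt_of_le_of_lt natDegree_mul_le ?_
      rw [natDegree_X_pow]
      omega
  rw [len_eq F h2, len_eq F₁ (n := N) (by omega), len_eq F₂ (n := F₂.natDegree + 1) (by omega),
    Finset.sum_range_add]
  congr 1
  · refine Finset.sum_congr rfl fun i hi => ?_
    rw [h, coeff_add, coeff_X_pow_mul', if_neg (by have := Finset.mem_range.1 hi; omega), add_zero]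
  · refine Finset.sum_congr rfl fun i hi => ?_
    rw [h, coeff_add, add_comm N i, coeff_X_pow_mul, coeff_eq_zero_of_natDegree_lt (by omega),
      zero_add]

theorem exists_split {F : ℤ[X]} {k N : ℕ} (hkN : k < N) (h : ∀ j, k < j → j < N → F.coeff j = 0) :
    ∃ F₁ F₂ : ℤ[X], F₁.natDegree ≤ k ∧ F = F₁ + X ^ N * F₂ ∧ (∀ j, j ≤ k → F₁.coeff j = F.coeff j) ∧
      ∀ j, F₂.coeff j = F.coeff (j + N) := by
  classical
  set F₁ : ℤ[X] := ∑ i ∈ Finset.range (k + 1), monomial i (F.coeff i) with hF₁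
  have hc : ∀ j, F₁.coeff j = if j ≤ k then F.coeff j else 0 := by
    intro j
    rw [hF₁]
    simp only [finsetSum_coeff, coeff_monomial, Finset.sum_ite_eq', Finset.mem_range,
      Nat.lt_succ_iff]
  have hd : X ^ N ∣ F - F₁ := by
    rw [X_pow_dvd_iff]
    intro j hj
    rw [coeff_sub, hc]
    split_ifs with hjk
    · ring
    · rw [h j (by omega) hj, sub_zero]
  obtain ⟨F₂, hF₂⟩ := hd
  have hsum : F = F₁ + X ^ N * F₂ := by rw [← hF₂]; ring
  refine ⟨F₁, F₂, ?_, hsum, ?_, ?_⟩
  · rw [natDegree_le_iff_coeff_eq_zero]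
    intro j hj
    rw [hc, if_neg (by omega)]
  · intro j hj
    rw [hc, if_pos hj]
  · intro j
    have h2 : F.coeff (j + N) = F₁.coeff (j + N) + (X ^ N * F₂).coeff (j + N) := by
      rw [← coeff_add, ← hsum]
    rw [h2, coeff_X_pow_mul, hc, if_neg (by omega), zero_add]

theorem isCoprime_or_dvd_tmp {K : Type*} [Field K] {p : K[X]} (hp : Irreducible p) (q : K[X]) :
    IsCoprime p q ∨ p ∣ q := by
  by_cases h : p ∣ q
  · exact Or.inr h
  · exact Or.inl ((Irreducible.coprime_iff_not_dvd hp).2 h)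

theorem aeval_ne_zero {P G : ℤ[X]} (hP : Irreducible P) (hd : P.natDegree ≠ 0) (hG : ¬ P ∣ G)
    {r : ℂ} (hr : aeval r P = 0) : aeval r G ≠ 0 := by
  intro h
  have hprim : P.IsPrimitive := hP.isPrimitive hd
  have hirr : Irreducible (P.map (Int.castRingHom ℚ)) :=
    (IsPrimitive.Int.irreducible_iff_irreducible_map_cast hprim).1 hP
  rcases isCoprime_or_dvd_tmp hirr (G.map (Int.castRingHom ℚ)) with h1 | h1
  · obtain ⟨u, v, huv⟩ := h1
    have h2 := congrArg (aeval r) huv
    have e : ∀ Q : ℤ[X], aeval r (Q.map (Int.castRingHom ℚ)) = aeval r Q := by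
      intro Q
      exact aeval_map_algebraMap ℚ r Q
    rw [map_add, map_mul, map_mul, e, e, hr, h, mul_zero, mul_zero, add_zero, map_one] at h2
    exact zero_ne_one h2
  · exact hG ((IsPrimitive.Int.dvd_iff_map_cast_dvd_map_cast P G hprim).2 h1)

/-- There is a minimum-length multiple with nonzero constant term. -/
theorem exists_min {P : ℤ[X]} (hP : Irreducible P) (hX : ¬ P ∣ X) :
    ∃ F, IsMin P F ∧ F.coeff 0 ≠ 0 := by
  classical
  have hP0 : P ≠ 0 := hP.ne_zero
  -- the least length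
  have hex : ∃ n : ℕ, ∃ F : ℤ[X], F ≠ 0 ∧ P ∣ F ∧ len F = n :=
    ⟨(len P).toNat, P, hP0, dvd_rfl, (Int.toNat_of_nonneg (len_nonneg P)).symm⟩
  obtain ⟨F, hF0, hF, hlen⟩ := Nat.find_spec hex
  have hmin : ∀ G : ℤ[X], G ≠ 0 → P ∣ G → len F ≤ len G := by
    intro G hG0 hG
    have h1 := Nat.find_min' hex ⟨G, hG0, hG, (Int.toNat_of_nonneg (len_nonneg G)).symm⟩
    rw [hlen, ← Int.toNat_of_nonneg (len_nonneg G)]
    exact_mod_cast h1
  obtain ⟨n, G, hG, hFG⟩ : ∃ (n : ℕ) (G : ℤ[X]), ¬ X ∣ G ∧ F = X ^ n * G := by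
    obtain ⟨n, G, h1, h2⟩ := exists_eq_pow_rootMultiplicity_mul_and_not_dvd F hF0 0 |>.imp (fun _ h => h) |> fun h => (⟨_, h.choose, h.choose_spec.2, h.choose_spec.1⟩ : ∃ (n : ℕ) (G : ℤ[X]), ¬ (X - C 0) ∣ G ∧ F = (X - C 0) ^ n * G)
    exact ⟨n, G, by simpa using h1, by simpa using h2⟩
  have hG0 : G ≠ 0 := by
    rintro rfl
    exact hG (dvd_zero _)
  have hPG : P ∣ G := by
    rw [hFG] at hF
    rcases (hP.prime.dvd_or_dvd hF) with h | h
    · exact absurd (hP.prime.dvd_of_dvd_pow h) hX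
    · exact h
  have hlenG : len F = len G := by
    have : F = 0 + X ^ (n + 0) * G := by rw [hFG]; simp
    rcases Nat.eq_zero_or_pos n with hn | hn
    · rw [hFG, hn]; simp
    · have h3 := len_split (F := F) (F₁ := 0) (F₂ := G) (k := 0) (N := n) (by simp) hn
        (by rw [hFG]; simp)
      have h4 : len (0 : ℤ[X]) = 0 := by unfold len; simp
      rw [h3, h4, zero_add]
  refine ⟨G, ⟨hG0, hPG, fun H h1 h2 => hlenG ▸ hmin H h1 h2⟩, ?_⟩
  intro h
  exact hG (X_dvd_iff.2 h)

/-- The degree bound. -/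
theorem degree_lt {P F : ℤ[X]} (hP : Irreducible P) (hd : P.natDegree ≠ 0)
    (ha : 2 ≤ |P.leadingCoeff|) (hF : IsMin P F) (h0 : F.coeff 0 ≠ 0) {L : ℕ} (hL : len F ≤ L) :
    F.natDegree < L * P.natDegree * L := by
  classical
  obtain ⟨hF0, hPF, hmin⟩ := hF
  by_contra hcon
  push Not at hcon
  set g : ℕ := L * P.natDegree with hg
  have hcard : F.support.card ≤ L := by
    have := (card_support_le F).trans hL
    exact_mod_cast this
  have hL1 : 1 ≤ L := by
    have := (one_le_len hF0).trans hL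
    exact_mod_cast this
  have hg1 : 1 ≤ g := by
    rw [hg]
    exact Nat.mul_pos hL1 (Nat.pos_of_ne_zero hd)
  -- an empty window
  obtain ⟨t, ht, hempty⟩ : ∃ t, t < L ∧ ∀ j, t * g < j → j ≤ (t + 1) * g → F.coeff j = 0 := by
    by_contra hno
    push Not at hno
    choose! σ h1 h2 h3 using hno
    have h4 : (Finset.range L).card ≤ (F.support.erase 0).card := by
      refine Finset.card_le_card_of_injOn σ ?_ ?_
      · intro t ht
        have ht' : t < L := by simpa using ht
        rw [Finset.mem_coe, Finset.mem_erase, mem_support_iff]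
        refine ⟨?_, h3 t ht'⟩
        have := h1 t ht'
        omega
      · intro t ht t' ht' heq
        have hta : t < L := by simpa using ht
        have htb : t' < L := by simpa using ht'
        have a1 := h1 t hta
        have a2 := h2 t hta
        have b1 := h1 t' htb
        have b2 := h2 t' htb
        rw [heq] at a1 a2
        have c1 : t * g < (t' + 1) * g := by omega
        have c2 : t' * g < (t + 1) * g := by omega
        have d1 := Nat.lt_of_mul_lt_mul_right c1
        have d2 := Nat.lt_of_mul_lt_mul_right c2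
        omega
    rw [Finset.card_range, Finset.card_erase_of_mem (mem_support_iff.2 h0)] at h4
    omega
  have hlt : t * g < (t + 1) * g + 1 := by
    have : t * g ≤ (t + 1) * g := Nat.mul_le_mul_right _ (by omega)
    omega
  obtain ⟨F₁, F₂, hF₁, hsum, hc1, hc2⟩ := exists_split (F := F) hlt
    (fun j h1 h2 => hempty j h1 (by omega))
  have hF₁0 : F₁ ≠ 0 := by
    rintro rfl
    apply h0
    rw [← hc1 0 (Nat.zero_le _), coeff_zero]
  have hdeg : (t + 1) * g < F.natDegree := by
    have h5 : (t + 1) * g ≤ F.natDegree := by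
      refine le_trans ?_ hcon
      rw [mul_comm g L]
      exact Nat.mul_le_mul_right _ (by omega)
    rcases Nat.lt_or_ge ((t + 1) * g) F.natDegree with h6 | h6
    · exact h6
    · exfalso
      have h7 : F.coeff F.natDegree = 0 := by
        refine hempty _ ?_ h6
        have : t * g < (t + 1) * g := by
          rw [add_mul, one_mul]
          omega
        omega
      exact leadingCoeff_ne_zero.2 hF0 h7
  have hF₂0 : F₂ ≠ 0 := by
    rintro rfl
    have h7 := hc2 (F.natDegree - ((t + 1) * g + 1))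
    rw [coeff_zero, Nat.sub_add_cancel (by omega)] at h7
    exact leadingCoeff_ne_zero.2 hF0 h7.symm
  have hsplit := len_split hF₁ hlt hsum
  have hl1 := one_le_len hF₁0
  have hl2 := one_le_len hF₂0
  by_cases hdvd : P ∣ F₂
  · have h8 : P ∣ F₁ := by
      rw [hsum] at hPF
      exact (dvd_add_left (Dvd.dvd.mul_left hdvd _)).1 hPF
    have h9 := hmin F₁ hF₁0 h8
    omega
  · have hLr : (len F : ℝ) ≤ L := by exact_mod_cast hL
    have h10 := gap (L := (L : ℝ)) (hP.isPrimitive hd) hF₁ hlt.le (hsum ▸ hPF)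
      (fun r hr => aeval_ne_zero hP hd hdvd hr)
      (by
        have : (len F₁ : ℝ) ≤ len F := by exact_mod_cast (by omega : len F₁ ≤ len F)
        linarith)
      (by
        have : (len F₂ : ℝ) ≤ len F := by exact_mod_cast (by omega : len F₂ ≤ len F)
        linarith)
    have h11 : (t + 1) * g + 1 - t * g = g + 1 := by
      rw [add_mul, one_mul]
      omega
    rw [h11] at h10
    have h12 : (2 : ℝ) ^ (g + 1) ≤ |(P.leadingCoeff : ℝ)| ^ (g + 1) := by
      refine pow_le_pow_left₀ (by norm_num) ?_ _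
      exact_mod_cast ha
    have h13 : (L : ℝ) ^ P.natDegree ≤ (2 : ℝ) ^ g := by
      rw [hg, pow_mul]
      refine pow_le_pow_left₀ (by positivity) ?_ _
      exact_mod_cast (Nat.lt_two_pow_self (n := L)).le
    have h14 : (2 : ℝ) ^ (g + 1) = 2 * 2 ^ g := by rw [pow_succ]; ring
    have h15 : (0 : ℝ) < 2 ^ g := by positivity
    linarith

/-- The coefficients of the cofactor. -/
theorem cofactor_le {P T : ℤ[X]} (h0 : P.coeff 0 ≠ 0) {L : ℕ} (hP : len P ≤ L)
    (hF : len (P * T) ≤ L) (n : ℕ) : |T.coeff n| ≤ ((L : ℤ) + 1) ^ (n + 1) := by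
  have hL0 : (0 : ℤ) ≤ L := Int.natCast_nonneg L
  induction n using Nat.strong_induction_on with
  | _ n ih =>
    have h1 : (P * T).coeff n = P.coeff 0 * T.coeff n +
        ∑ i ∈ Finset.range n, P.coeff (i + 1) * T.coeff (n - (i + 1)) := by
      rw [coeff_mul, Finset.Nat.sum_antidiagonal_eq_sum_range_succ
        (fun i j => P.coeff i * T.coeff j) n, Finset.sum_range_succ', add_comm]
      rfl
    have h2 : |T.coeff n| ≤ |P.coeff 0 * T.coeff n| := by
      rw [abs_mul]
      exact le_mul_of_one_le_left (abs_nonneg _) (Int.one_le_abs h0)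
    have h3 : |∑ i ∈ Finset.range n, P.coeff (i + 1) * T.coeff (n - (i + 1))| ≤
        (∑ i ∈ Finset.range n, |P.coeff (i + 1)|) * ((L : ℤ) + 1) ^ n := by
      refine (Finset.abs_sum_le_sum_abs _ _).trans ?_
      rw [Finset.sum_mul]
      refine Finset.sum_le_sum fun i hi => ?_
      have hi' := Finset.mem_range.1 hi
      rw [abs_mul]
      refine mul_le_mul_of_nonneg_left ?_ (abs_nonneg _)
      refine (ih (n - (i + 1)) (by omega)).trans ?_
      exact pow_le_pow_right₀ (by omega) (by omega)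
    have h4 : ∑ i ∈ Finset.range n, |P.coeff (i + 1)| + |P.coeff 0| ≤ L := by
      refine le_trans ?_ hP
      rw [← Finset.sum_range_succ' (fun i => |P.coeff i|) n]
      rw [len_eq P (n := max (n + 1) (P.natDegree + 1)) (by omega)]
      refine Finset.sum_le_sum_of_subset_of_nonneg ?_ (fun _ _ _ => abs_nonneg _)
      exact Finset.range_subset_range.2 (le_max_left _ _)
    have h5 : 1 ≤ |P.coeff 0| := Int.one_le_abs h0
    have h6 : |(P * T).coeff n| ≤ L := (abs_coeff_le _ n).trans hF
    have h7 : |P.coeff 0 * T.coeff n| ≤ |(P * T).coeff n| +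
        |∑ i ∈ Finset.range n, P.coeff (i + 1) * T.coeff (n - (i + 1))| := by
      have : P.coeff 0 * T.coeff n = (P * T).coeff n -
          ∑ i ∈ Finset.range n, P.coeff (i + 1) * T.coeff (n - (i + 1)) := by rw [h1]; ring
      rw [this]
      exact abs_sub _ _
    have h8 : (∑ i ∈ Finset.range n, |P.coeff (i + 1)|) * ((L : ℤ) + 1) ^ n ≤
        ((L : ℤ) - 1) * ((L : ℤ) + 1) ^ n :=
      mul_le_mul_of_nonneg_right (by omega) (by positivity)
    have h9 : (1 : ℤ) ≤ ((L : ℤ) + 1) ^ n := one_le_pow₀ (by omega)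
    have h10 : (L : ℤ) ≤ 2 * L * ((L : ℤ) + 1) ^ n := by nlinarith
    have h11 : ((L : ℤ) + 1) ^ (n + 1) = L * ((L : ℤ) + 1) ^ n + ((L : ℤ) + 1) ^ n := by
      rw [pow_succ]; ring
    have h12 : ((L : ℤ) - 1) * ((L : ℤ) + 1) ^ n = L * ((L : ℤ) + 1) ^ n - ((L : ℤ) + 1) ^ n := by
      ring
    rcases Nat.eq_zero_or_pos n with hn | hn
    · subst hn
      simp only [pow_zero, zero_add, pow_one, Finset.range_zero, Finset.sum_empty, abs_zero,
        add_zero] at *
      omega
    · have h13 : (L : ℤ) + 1 ≤ ((L : ℤ) + 1) ^ n := le_self_pow₀ (by omega) (by omega)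
      omega

end Pool.Agent.U798.ML
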