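import Mathlib

/-!
# A gap principle for multiples of nonmonic irreducible polynomials

If `P` is irreducible in `ℤ[X]` of degree `d ≥ 1` with leading coefficient `a`, if `P` divides
`F₁ + X ^ N F₂` with `deg F₁ ≤ k ≤ N`, and `P` does not divide `F₂`, then `|a| ^ (N - k) ≤ L ^ d` for
every bound `L` of the lengths of `F₁` and `F₂`.
-/

set_option autoImplicit false

namespace Pool.Agent.U798.ML

open Polynomial

/-- A complex number which lies in all valuation subrings of `ℂ` is an algebraic integer. -/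
theorem isIntegral_of_forall_mem {q : ℂ} (h : ∀ V : ValuationSubring ℂ, q ∈ V) : IsIntegral ℤ q := by
  have h1 : q ∈ (⨅ V : {V : ValuationSubring ℂ // (∅ : Set ℂ) ⊆ V.toSubring}, V.1.toSubring) := by
    rw [Subring.mem_iInf]
    intro V
    exact h V.1
  rw [iInf_valuationSubring_superset] at h1
  have h2 : IsIntegral (Subring.closure (∅ : Set ℂ)) q := h1
  obtain ⟨p, hp, hq⟩ := h2
  have h3 : ∀ x : Subring.closure (∅ : Set ℂ), ∃ n : ℤ, (x : ℂ) = n := by
    rintro ⟨x, hx⟩
    rw [Subring.closure_empty] at hx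
    obtain ⟨n, hn⟩ := Subring.mem_bot.1 hx
    exact ⟨n, hn.symm⟩
  choose g hg using h3
  refine ⟨∑ i ∈ Finset.range (p.natDegree + 1), C (g (p.coeff i)) * X ^ i, ?_, ?_⟩
  · have hco : ∀ j, (∑ i ∈ Finset.range (p.natDegree + 1), C (g (p.coeff i)) * X ^ i).coeff j =
        if j < p.natDegree + 1 then g (p.coeff j) else 0 := by
      intro j
      simp only [finsetSum_coeff, coeff_C_mul, coeff_X_pow, mul_ite, mul_one, mul_zero,
        Finset.sum_ite_eq, Finset.mem_range]
    refine monic_of_natDegree_le_of_coeff_eq_one p.natDegree ?_ ?_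
    · rw [natDegree_le_iff_coeff_eq_zero]
      intro j hj
      rw [hco, if_neg (by omega)]
    · rw [hco, if_pos (by omega)]
      have h4 : ((g (p.coeff p.natDegree) : ℤ) : ℂ) = 1 := by
        rw [← hg]
        have : p.coeff p.natDegree = 1 := hp
        rw [this]
        rfl
      exact_mod_cast h4
  · rw [eval₂_eq_sum_range] at hq
    rw [eval₂_finsetSum, ← hq]
    refine Finset.sum_congr rfl fun i _ => ?_
    rw [eval₂_mul, eval₂_C, eval₂_X_pow]
    congr 1
    have : (algebraMap (Subring.closure (∅ : Set ℂ)) ℂ) (p.coeff i) = (p.coeff i : ℂ) := rfl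
    rw [this, hg]
    rfl

/-- Values at elements of a valuation subring. -/
theorem aeval_mem (V : ValuationSubring ℂ) (F : ℤ[X]) {r : ℂ} (hr : r ∈ V) : aeval r F ∈ V := by
  rw [aeval_eq_sum_range]
  refine sum_mem fun i _ => ?_
  rw [zsmul_eq_mul]
  exact V.mul_mem _ _ (intCast_mem V _) (pow_mem hr _)

/-- Values at elements outside of a valuation subring. -/
theorem aeval_div_mem (V : ValuationSubring ℂ) (F : ℤ[X]) {k : ℕ} (hk : F.natDegree ≤ k) {r : ℂ}
    (hr0 : r ≠ 0) (hr : r⁻¹ ∈ V) : aeval r F * (r⁻¹) ^ k ∈ V := by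
  rw [aeval_eq_sum_range, Finset.sum_mul]
  refine sum_mem fun i hi => ?_
  have hi' : i ≤ k := by
    have := Finset.mem_range.1 hi
    omega
  rw [zsmul_eq_mul, mul_assoc]
  refine V.mul_mem _ _ (intCast_mem V _) ?_
  have : r ^ i * (r⁻¹) ^ k = (r⁻¹) ^ (k - i) := by
    obtain ⟨j, rfl⟩ := Nat.exists_eq_add_of_le hi'
    rw [pow_add, ← mul_assoc, ← mul_pow, mul_inv_cancel₀ hr0, one_pow, one_mul]
    congr 1
    omega
  rw [this]
  exact pow_mem hr _

/-- A product of linear factors is a constant times a polynomial over the valuation subring. -/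
theorem prod_linear (V : ValuationSubring ℂ) (s : Multiset ℂ) :
    ∃ (t : ℂ → ℂ) (G : Polynomial V), (∀ r, (r ∈ V → t r = 1) ∧ (r ∉ V → t r = r)) ∧
      (s.map fun r => (X - C r : ℂ[X])).prod =
        C (s.map t).prod * G.map V.subtype := by
  classical
  refine ⟨fun r => if r ∈ V then 1 else r, ?_⟩
  induction s using Multiset.induction with
  | empty => exact ⟨1, fun r => ⟨fun h => if_pos h, fun h => if_neg h⟩, by simp⟩
  | cons r s ih =>
    obtain ⟨G, h0, hG⟩ := ih
    by_cases hr : r ∈ V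
    · refine ⟨(X - C ⟨r, hr⟩) * G, h0, ?_⟩
      rw [Multiset.map_cons, Multiset.prod_cons, hG, Multiset.map_cons, Multiset.prod_cons,
        if_pos hr, Polynomial.map_mul, Polynomial.map_sub, map_X, map_C]
      have : V.subtype ⟨r, hr⟩ = r := rfl
      rw [this, one_mul]
      ring
    · have hr' : r⁻¹ ∈ V := (V.mem_or_inv_mem r).resolve_left hr
      have hr0 : r ≠ 0 := by
        rintro rfl
        exact hr V.zero_mem
      refine ⟨(C ⟨r⁻¹, hr'⟩ * X - 1) * G, h0, ?_⟩
      rw [Multiset.map_cons, Multiset.prod_cons, hG, Multiset.map_cons, Multiset.prod_cons,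
        if_neg hr, Polynomial.map_mul, Polynomial.map_sub, Polynomial.map_mul, map_X, map_C,
        Polynomial.map_one]
      have : V.subtype ⟨r⁻¹, hr'⟩ = r⁻¹ := rfl
      rw [this, C_mul]
      have h2 : (C r * C r⁻¹ : ℂ[X]) = 1 := by
        rw [← C_mul, mul_inv_cancel₀ hr0, C_1]
      linear_combination (-(X : ℂ[X]) * C (Multiset.map (fun r => if r ∈ V then 1 else r) s).prod *
        Polynomial.map V.subtype G) * h2

/-- The inverse of the content. -/
theorem inv_mem {P : ℤ[X]} (hP : P.IsPrimitive) (V : ValuationSubring ℂ) {A : ℂ} (hA : A ≠ 0)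
    (G : Polynomial V) (h : P.map (Int.castRingHom ℂ) = C A * G.map V.subtype) : A⁻¹ ∈ V := by
  let I : Ideal ℤ :=
    { carrier := {n : ℤ | (n : ℂ) * A⁻¹ ∈ V}
      add_mem' := by
        intro a b ha hb
        simp only [Set.mem_ofPred_eq] at *
        rw [Int.cast_add, add_mul]
        exact V.add_mem _ _ ha hb
      zero_mem' := by
        simp only [Set.mem_ofPred_eq, Int.cast_zero, zero_mul]
        exact V.zero_mem
      smul_mem' := by
        intro c a ha
        simp only [Set.mem_ofPred_eq, smul_eq_mul] at *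
        rw [Int.cast_mul, mul_assoc]
        exact V.mul_mem _ _ (intCast_mem V _) ha }
  have hI : ∀ n : ℤ, n ∈ I ↔ (n : ℂ) * A⁻¹ ∈ V := fun n => Iff.rfl
  have h1 : ∀ i, P.coeff i ∈ I := by
    intro i
    rw [hI]
    have h2 := congrArg (fun Q : ℂ[X] => Q.coeff i) h
    simp only [coeff_map, coeff_C_mul] at h2
    have h3 : ((P.coeff i : ℤ) : ℂ) = A * V.subtype (G.coeff i) := h2
    rw [h3, mul_comm A, mul_assoc, mul_inv_cancel₀ hA, mul_one]
    exact (G.coeff i).2
  obtain ⟨m, hm⟩ := (IsPrincipalIdealRing.principal I)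
  have h2 : C m ∣ P := by
    rw [C_dvd_iff_dvd_coeff]
    intro i
    have := h1 i
    rw [hm] at this
    exact Ideal.mem_span_singleton.1 this
  have h3 : IsUnit m := hP m h2
  have h4 : (1 : ℤ) ∈ I := by
    rw [hm]
    exact Ideal.mem_span_singleton.2 h3.dvd
  rw [hI, Int.cast_one, one_mul] at h4
  exact h4

/-- The length of an integer polynomial. -/
noncomputable def len (F : ℤ[X]) : ℤ := ∑ i ∈ F.support, |F.coeff i|

theorem len_nonneg (F : ℤ[X]) : 0 ≤ len F := Finset.sum_nonneg fun _ _ => abs_nonneg _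

theorem norm_aeval_le (F : ℤ[X]) {r : ℂ} (hr : ‖r‖ ≤ 1) : ‖aeval r F‖ ≤ len F := by
  rw [aeval_def, eval₂_eq_sum, Polynomial.sum]
  refine (norm_sum_le _ _).trans ?_
  unfold len
  push_cast
  refine Finset.sum_le_sum fun i _ => ?_
  rw [norm_mul, norm_pow]
  have h1 : ‖(algebraMap ℤ ℂ) (F.coeff i)‖ = |((F.coeff i : ℤ) : ℝ)| := by
    have : (algebraMap ℤ ℂ) (F.coeff i) = ((F.coeff i : ℤ) : ℂ) := rfl
    rw [this, Complex.norm_intCast]
  rw [h1]
  exact mul_le_of_le_one_right (abs_nonneg _) (pow_le_one₀ (norm_nonneg _) hr)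

theorem norm_aeval_div_le (F : ℤ[X]) {k : ℕ} (hk : F.natDegree ≤ k) {r : ℂ} (hr : 1 ≤ ‖r‖) :
    ‖aeval r F‖ ≤ len F * ‖r‖ ^ k := by
  rw [aeval_def, eval₂_eq_sum, Polynomial.sum]
  refine (norm_sum_le _ _).trans ?_
  unfold len
  push_cast
  rw [Finset.sum_mul]
  refine Finset.sum_le_sum fun i hi => ?_
  rw [norm_mul, norm_pow]
  have h1 : ‖(algebraMap ℤ ℂ) (F.coeff i)‖ = |((F.coeff i : ℤ) : ℝ)| := by
    have : (algebraMap ℤ ℂ) (F.coeff i) = ((F.coeff i : ℤ) : ℂ) := rfl
    rw [this, Complex.norm_intCast]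
  rw [h1]
  have h2 : i ≤ k := (le_natDegree_of_mem_supp i hi).trans hk
  exact mul_le_mul_of_nonneg_left (pow_le_pow_right₀ hr h2) (abs_nonneg _)

theorem norm_prod_le {f : ℂ → ℂ} {L : ℝ} (hL0 : 0 ≤ L) (s : Multiset ℂ)
    (hbd : ∀ r ∈ s, ‖f r‖ ≤ L) : ‖(s.map f).prod‖ ≤ L ^ s.card := by
  induction s using Multiset.induction with
  | empty => simp
  | cons r s ih =>
    rw [Multiset.map_cons, Multiset.prod_cons, norm_mul, Multiset.card_cons, pow_succ, mul_comm]
    exact mul_le_mul (ih (fun r' hr' => hbd r' (Multiset.mem_cons_of_mem hr')))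
      (hbd r (Multiset.mem_cons_self r s)) (norm_nonneg _) (pow_nonneg hL0 _)

/-- The gap principle. -/
theorem gap {P F₁ F₂ : ℤ[X]} {k N : ℕ} {L : ℝ} (hP : P.IsPrimitive) (h1 : F₁.natDegree ≤ k)
    (hkN : k ≤ N) (hdvd : P ∣ F₁ + X ^ N * F₂)
    (hnv : ∀ r : ℂ, aeval r P = 0 → aeval r F₂ ≠ 0)
    (hL1 : (len F₁ : ℝ) ≤ L) (hL2 : (len F₂ : ℝ) ≤ L) :
    |(P.leadingCoeff : ℝ)| ^ (N - k) ≤ L ^ P.natDegree := by
  classical
  set a : ℤ := P.leadingCoeff with ha
  have hP0 : P ≠ 0 := hP.ne_zero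
  have ha0 : a ≠ 0 := leadingCoeff_ne_zero.2 hP0
  have haC : (a : ℂ) ≠ 0 := by exact_mod_cast ha0
  set PC : ℂ[X] := P.map (Int.castRingHom ℂ) with hPC
  have hinj : Function.Injective (Int.castRingHom ℂ) := Int.cast_injective
  have hPC0 : PC ≠ 0 := by
    rw [hPC]
    exact (Polynomial.map_ne_zero_iff hinj).2 hP0
  have hlc : PC.leadingCoeff = (a : ℂ) := by
    rw [hPC, leadingCoeff_map_of_injective hinj]
    rfl
  have hdeg : PC.natDegree = P.natDegree := by
    rw [hPC, natDegree_map_eq_of_injective hinj]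
  have hspl : PC.Splits := IsAlgClosed.splits PC
  set s : Multiset ℂ := PC.roots with hs
  have hcard : s.card = P.natDegree := by
    rw [hs, ← hdeg]
    exact hspl.natDegree_eq_card_roots.symm
  have hprod : PC = C (a : ℂ) * (s.map fun r => (X - C r)).prod := by
    rw [← hlc, hs]
    exact hspl.eq_prod_roots
  have hroot : ∀ r ∈ s, aeval r P = 0 := by
    intro r hr
    have h2 := isRoot_of_mem_roots hr
    rw [IsRoot.def, hPC, eval_map] at h2
    exact h2
  have hrel : ∀ r ∈ s, aeval r F₁ = - (r ^ N * aeval r F₂) := by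
    intro r hr
    obtain ⟨T, hT⟩ := hdvd
    have h2 := congrArg (aeval r) hT
    rw [map_add, map_mul, map_mul, hroot r hr, zero_mul, map_pow, aeval_X] at h2
    exact eq_neg_of_add_eq_zero_left h2
  have hne : ∀ r ∈ s, aeval r F₂ ≠ 0 := fun r hr => hnv r (hroot r hr)
  set q : ℂ := ((a : ℂ)⁻¹) ^ (N - k) * (s.map fun r => aeval r F₂).prod with hq
  -- `q` is an algebraic integer
  have hint : IsIntegral ℤ q := by
    apply isIntegral_of_forall_mem
    intro V
    obtain ⟨t, G, ht, hG⟩ := prod_linear V s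
    have htne : ∀ r ∈ s, t r ≠ 0 := by
      intro r hr
      by_cases h : r ∈ V
      · rw [(ht r).1 h]
        exact one_ne_zero
      · rw [(ht r).2 h]
        rintro rfl
        exact h V.zero_mem
    set A : ℂ := (a : ℂ) * (s.map t).prod with hA
    have hA0 : A ≠ 0 := by
      rw [hA]
      refine mul_ne_zero haC ?_
      rw [Ne, Multiset.prod_eq_zero_iff, Multiset.mem_map]
      rintro ⟨r, hr, h⟩
      exact htne r hr h
    have hAi : A⁻¹ ∈ V := by
      refine inv_mem hP V hA0 G ?_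
      rw [← hPC, hprod, hG, hA, C_mul, mul_assoc]
    have hqA : q = A⁻¹ ^ (N - k) * (s.map fun r => aeval r F₂ * (t r) ^ (N - k)).prod := by
      rw [Multiset.prod_map_mul, Multiset.prod_map_pow, hq, hA, mul_inv, mul_pow]
      have h3 : (s.map t).prod ≠ 0 := (mul_ne_zero_iff.1 hA0).2
      have h4 : ((s.map t).prod⁻¹) ^ (N - k) * (s.map t).prod ^ (N - k) = 1 := by
        rw [← mul_pow, inv_mul_cancel₀ h3, one_pow]
      linear_combination (-((a : ℂ)⁻¹) ^ (N - k) * (s.map fun r => aeval r F₂).prod) * h4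
    rw [hqA]
    refine V.mul_mem _ _ (pow_mem hAi _) ?_
    refine multiset_prod_mem _ ?_
    intro y hy
    obtain ⟨r, hr, rfl⟩ := Multiset.mem_map.1 hy
    by_cases h : r ∈ V
    · rw [(ht r).1 h, one_pow, mul_one]
      exact aeval_mem V F₂ h
    · rw [(ht r).2 h]
      have hr' : r⁻¹ ∈ V := (V.mem_or_inv_mem r).resolve_left h
      have hr0 : r ≠ 0 := by
        rintro rfl
        exact h V.zero_mem
      have h5 := aeval_div_mem V F₁ h1 hr0 hr'
      rw [hrel r hr] at h5
      have h6 : aeval r F₂ * r ^ (N - k) = -(-(r ^ N * aeval r F₂) * r⁻¹ ^ k) := by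
        obtain ⟨j, rfl⟩ := Nat.exists_eq_add_of_le hkN
        have h7 : r ^ k * r⁻¹ ^ k = 1 := by rw [← mul_pow, mul_inv_cancel₀ hr0, one_pow]
        rw [Nat.add_sub_cancel_left, pow_add]
        linear_combination (-(aeval r F₂ * r ^ j)) * h7
      rw [h6]
      exact V.neg_mem _ h5
  -- `q` is rational
  have hrat : ∃ q' : ℚ, (q' : ℂ) = q := by
    have h2 := resultant_eq_prod_eval PC (F₂.map (Int.castRingHom ℂ)) F₂.natDegree
      natDegree_map_le hspl
    have h3 : (s.map fun r => aeval r F₂).prod =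
        (s.map (F₂.map (Int.castRingHom ℂ)).eval).prod := by
      congr 1
      refine Multiset.map_congr rfl fun r _ => ?_
      rw [eval_map]
      rfl
    have h4 : resultant PC (F₂.map (Int.castRingHom ℂ)) PC.natDegree F₂.natDegree =
        ((resultant P F₂ PC.natDegree F₂.natDegree : ℤ) : ℂ) := by
      rw [hPC, resultant_map_map]
      rfl
    rw [h4, hlc, ← hs, ← h3] at h2
    refine ⟨(((a : ℚ)⁻¹) ^ (N - k) * (resultant P F₂ PC.natDegree F₂.natDegree : ℤ) *
      ((a : ℚ)⁻¹) ^ F₂.natDegree), ?_⟩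
    push_cast
    rw [h2, hq]
    have h5 : (a : ℂ) ^ F₂.natDegree * ((a : ℂ)⁻¹) ^ F₂.natDegree = 1 := by
      rw [← mul_pow, mul_inv_cancel₀ haC, one_pow]
    linear_combination (((a : ℂ)⁻¹) ^ (N - k) * (s.map fun r => aeval r F₂).prod) * h5
  obtain ⟨q', hq'⟩ := hrat
  have hint' : IsIntegral ℤ q' := by
    rw [← hq'] at hint
    exact (isIntegral_algebraMap_iff (algebraMap ℚ ℂ).injective).1 hint
  obtain ⟨z, hz⟩ := IsIntegrallyClosed.isIntegral_iff.1 hint'
  have hqz : q = (z : ℂ) := by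
    rw [← hq', ← hz]
    simp
  have hq0 : q ≠ 0 := by
    rw [hq]
    refine mul_ne_zero (pow_ne_zero _ (inv_ne_zero haC)) ?_
    rw [Ne, Multiset.prod_eq_zero_iff, Multiset.mem_map]
    rintro ⟨r, hr, h⟩
    exact hne r hr h
  have hq1 : 1 ≤ ‖q‖ := by
    rw [hqz, Complex.norm_intCast]
    have : z ≠ 0 := by
      rintro rfl
      apply hq0
      rw [hqz]
      simp
    exact_mod_cast Int.one_le_abs this
  -- the size of `q`
  have hL0 : 0 ≤ L := le_trans (by exact_mod_cast len_nonneg F₂) hL2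
  have hbd : ∀ r ∈ s, ‖aeval r F₂‖ ≤ L := by
    intro r hr
    rcases le_total ‖r‖ 1 with h | h
    · exact (norm_aeval_le F₂ h).trans hL2
    · have h5 := norm_aeval_div_le F₁ h1 h
      rw [hrel r hr, norm_neg, norm_mul, norm_pow] at h5
      have h6 : 0 < ‖r‖ ^ k := by positivity
      have h7 : ‖r‖ ^ k ≤ ‖r‖ ^ N := pow_le_pow_right₀ h hkN
      have h8 : ‖r‖ ^ k * ‖aeval r F₂‖ ≤ len F₁ * ‖r‖ ^ k :=
        (mul_le_mul_of_nonneg_right h7 (norm_nonneg _)).trans h5
      have h9 : ‖aeval r F₂‖ ≤ len F₁ := by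
        rw [mul_comm] at h8
        exact le_of_mul_le_mul_right h8 h6
      exact h9.trans hL1
  have hnorm : ‖q‖ ≤ (|(a : ℝ)|⁻¹) ^ (N - k) * L ^ P.natDegree := by
    rw [hq, norm_mul, norm_pow, norm_inv, Complex.norm_intCast]
    refine mul_le_mul_of_nonneg_left ?_ (by positivity)
    rw [← hcard]
    exact norm_prod_le hL0 s hbd
  have ha1 : 0 < |(a : ℝ)| ^ (N - k) := by
    have : (a : ℝ) ≠ 0 := by exact_mod_cast ha0
    positivity
  have h10 : 1 ≤ (|(a : ℝ)|⁻¹) ^ (N - k) * L ^ P.natDegree := hq1.trans hnorm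
  rw [inv_pow, ← div_eq_inv_mul, le_div_iff₀ ha1, one_mul] at h10
  exact h10

end Pool.Agent.U798.ML
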